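import Mathlib
import Pool.Agent.H23.CE.RDFail

/-!
# The indicator condition does not imply property RD

We construct a length function `L` on a free group of countable rank such that `(G, L)`
satisfies the indicator condition but does not have property RD.  This is the negative answer
to Q1 of MP_37447d_al.
-/

namespace Pool.Agent.Results.MP_37447d_al.IndicatorNotRD

section defs

variable {G : Type} [Group G]

/-- `L` is a length function on the group `G`. -/
structure IsLengthFunction (L : G → ℝ) : Prop where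
  nonneg : ∀ g, 0 ≤ L g
  map_one : L 1 = 0
  map_inv : ∀ g, L g⁻¹ = L g
  map_mul_le : ∀ g h, L (g * h) ≤ L g + L h

/-- The ball `B(r)` of the length function `L`. -/
def ball (L : G → ℝ) (r : ℝ) : Set G := {g | L g ≤ r}

/-- The convolution `(φ * ψ)(g) = ∑ h, φ(h) ψ(h⁻¹ g)` (a finite sum if `φ` is finitely
supported). -/
noncomputable def conv (φ ψ : G → ℂ) : G → ℂ := fun g => ∑' h, φ h * ψ (h⁻¹ * g)

/-- `f` is square summable, i.e. `f ∈ ℓ²(G)`. -/
def SqSummable (f : G → ℂ) : Prop := Summable fun g => ‖f g‖ ^ 2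

/-- The square of the `ℓ²(G)` norm of `f`. -/
noncomputable def normSq (f : G → ℂ) : ℝ := ∑' g, ‖f g‖ ^ 2

/-- Property RD of `(G, L)`: there is a polynomial `P` with
`‖φ * ψ‖² ≤ P(r) ‖φ‖² ‖ψ‖²` for all `r > 0`, all finitely supported `φ` with support in `B(r)`
and all `ψ ∈ ℓ²(G)`. -/
def PropertyRD (L : G → ℝ) : Prop :=
  ∃ P : Polynomial ℝ, ∀ r : ℝ, 0 < r → ∀ φ ψ : G → ℂ,
    φ.support.Finite → (∀ g, φ g ≠ 0 → g ∈ ball L r) → SqSummable ψ →
      normSq (conv φ ψ) ≤ P.eval r * normSq φ * normSq ψ

/-- The indicator condition for `(G, L)`: there is a polynomial `P` with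
`‖1_S * 1_X‖² ≤ P(r) |S| |X|` for all `r > 0`, all finite `S ⊆ B(r)` and all finite
`X ⊆ G`. -/
def IndicatorCondition (L : G → ℝ) : Prop :=
  ∃ P : Polynomial ℝ, ∀ r : ℝ, 0 < r → ∀ S X : Finset G, (S : Set G) ⊆ ball L r →
    normSq (conv ((S : Set G).indicator 1) ((X : Set G).indicator 1))
      ≤ P.eval r * (S.card : ℝ) * (X.card : ℝ)

end defs

/-- There are a countable group `G` (a free group) and a length function `L` on `G` such that
`(G, L)` satisfies the indicator condition but does not have property RD. -/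
theorem result : ∃ (α : Type) (L : FreeGroup α → ℝ), Countable (FreeGroup α) ∧
    IsLengthFunction L ∧ IndicatorCondition L ∧ ¬ PropertyRD L := by
  refine ⟨RDCE.Al, RDCE.Lfun, ?_, ?_, ?_, ?_⟩
  · have h1 : Countable (List (RDCE.Al × Bool)) := inferInstance
    classical
    exact Function.Injective.countable (f := FreeGroup.toWord (α := RDCE.Al))
      FreeGroup.toWord_injective
  · obtain ⟨h1, h2, h3, h4⟩ := RDCE.Lfun_isLengthFunction
    exact ⟨h1, h2, h3, h4⟩
  · exact RDCE.Lfun_indicator
  · rintro ⟨P, hP⟩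
    apply RDCE.Lfun_not_RD
    refine ⟨P, fun r hr φ ψ hφ hψ hsupp => hP r hr φ ψ hφ hsupp ?_⟩
    apply summable_of_finite_support
    apply hψ.subset
    intro g hg hg'
    rw [Function.mem_support] at hg
    apply hg
    rw [show ψ g = 0 from hg']
    simp

end Pool.Agent.Results.MP_37447d_al.IndicatorNotRD
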