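import Mathlib
import Pool.Agent.H23.RDKey

/-!
# Property RD and the indicator condition for length functions whose balls have
# polynomially bounded logarithmic size

For a length function `L` on a group `G` such that all balls `B(r)` are finite and
`log |B(r)|` is bounded by a polynomial in `r` (in particular for every word length on a
finitely generated group), the indicator condition is equivalent to property RD.
-/

namespace Pool.Agent.Results.MP_37447d_al.LogPolyGrowth

open Pool.Agent.H23.RDKey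

universe u

section defs

variable {G : Type u} [Group G]

/-- `L` is a length function on the group `G`. -/
structure IsLengthFunction (L : G → ℝ) : Prop where
  nonneg : ∀ g, 0 ≤ L g
  map_one : L 1 = 0
  map_inv : ∀ g, L g⁻¹ = L g
  map_mul_le : ∀ g h, L (g * h) ≤ L g + L h

/-- The ball `B(r)` of the length function `L`. -/
def ball (L : G → ℝ) (r : ℝ) : Set G := {g | L g ≤ r}

/-- The convolution `(φ * ψ)(g) = ∑ h, φ(h) ψ(h⁻¹ g)`. -/
noncomputable def conv (φ ψ : G → ℂ) : G → ℂ := fun g => ∑' h, φ h * ψ (h⁻¹ * g)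

/-- `f` is square summable, i.e. `f ∈ ℓ²(G)`. -/
def SqSummable (f : G → ℂ) : Prop := Summable fun g => ‖f g‖ ^ 2

/-- The square of the `ℓ²(G)` norm of `f`. -/
noncomputable def normSq (f : G → ℂ) : ℝ := ∑' g, ‖f g‖ ^ 2

/-- Property RD of `(G, L)`: there is a polynomial `P` with
`‖φ * ψ‖² ≤ P(r) ‖φ‖² ‖ψ‖²` for all `r > 0`, all `φ ∈ ℓ²(G)` supported in `B(r)` and all
`ψ ∈ ℓ²(G)` (and `φ * ψ ∈ ℓ²(G)`). -/
def PropertyRD (L : G → ℝ) : Prop :=
  ∃ P : Polynomial ℝ, ∀ r : ℝ, 0 < r → ∀ φ ψ : G → ℂ,
    (∀ g, φ g ≠ 0 → g ∈ ball L r) → SqSummable φ → SqSummable ψ →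
      SqSummable (conv φ ψ) ∧ normSq (conv φ ψ) ≤ P.eval r * normSq φ * normSq ψ

/-- The indicator condition for `(G, L)`: there is a polynomial `P` with
`‖1_S * 1_X‖² ≤ P(r) |S| |X|` for all `r > 0`, all finite `S ⊆ B(r)` and all finite
`X ⊆ G`. -/
def IndicatorCondition (L : G → ℝ) : Prop :=
  ∃ P : Polynomial ℝ, ∀ r : ℝ, 0 < r → ∀ S X : Finset G, (S : Set G) ⊆ ball L r →
    normSq (conv ((S : Set G).indicator 1) ((X : Set G).indicator 1))
      ≤ P.eval r * (S.card : ℝ) * (X.card : ℝ)

/-- All balls are finite and `log |B(r)|` is bounded by a polynomial in `r`. -/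
def LogPolynomialGrowth (L : G → ℝ) : Prop :=
  ∃ Q : Polynomial ℝ, ∀ r : ℝ, 0 < r →
    (ball L r).Finite ∧ Real.log ((ball L r).ncard : ℝ) ≤ Q.eval r

/-- The word length of `g` with respect to the finite set `T`: the least length of a word in
the elements of `T` and their inverses with product `g`. -/
noncomputable def wordLength (T : Finset G) (g : G) : ℝ :=
  ((sInf {n : ℕ | ∃ l : List G, l.length = n ∧ (∀ x ∈ l, x ∈ T ∨ x⁻¹ ∈ T) ∧ l.prod = g} : ℕ) : ℝ)

/-- `L` is the word length with respect to some finite generating set of `G`. -/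
def IsWordLength (L : G → ℝ) : Prop :=
  ∃ T : Finset G, Subgroup.closure (T : Set G) = ⊤ ∧ L = wordLength T

end defs

section proof

set_option linter.unusedSectionVars false

variable {G : Type u} [Group G]

lemma conv_indicator (S X : Finset G) [DecidableEq G] (g : G) :
    conv ((S : Set G).indicator 1) ((X : Set G).indicator 1) g
      = ((S.filter (fun s => s⁻¹ * g ∈ X)).card : ℂ) := by
  classical
  rw [conv, tsum_eq_sum (s := S)]
  · rw [Finset.card_filter]
    push_cast
    apply Finset.sum_congr rfl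
    intro s hs
    simp only [Set.indicator_apply, Finset.mem_coe, hs, if_true, Pi.one_apply, one_mul]
  · intro s hs
    simp [Set.indicator_apply, hs]

lemma card_pairs_eq [DecidableEq G] (S X Z : Finset G) :
    (pairs S X Z).card = ∑ z ∈ Z, (S.filter (fun s => s⁻¹ * z ∈ X)).card := by
  classical
  have h1 : ∀ z ∈ Z, (S.filter (fun s => s⁻¹ * z ∈ X)).card
      = ∑ s ∈ S, if s⁻¹ * z ∈ X then 1 else 0 := by
    intro z _
    rw [Finset.card_filter]
  rw [Finset.sum_congr rfl h1, ← Finset.sum_product_right (s := S) (t := Z)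
    (f := fun p => if p.1⁻¹ * p.2 ∈ X then 1 else 0), ← Finset.card_filter]
  apply Finset.card_bij (fun p _ => (p.1, p.1 * p.2))
  · intro p hp
    have := mem_pairs.1 hp
    simp [this.1.1, this.1.2, this.2]
  · intro p _ q _ h
    simp only [Prod.mk.injEq] at h
    ext
    · exact h.1
    · have h2 := h.2
      rw [h.1] at h2
      exact mul_left_cancel h2
  · intro q hq
    rw [Finset.mem_filter, Finset.mem_product] at hq
    refine ⟨(q.1, q.1⁻¹ * q.2), ?_, ?_⟩
    · rw [mem_pairs]
      refine ⟨⟨hq.1.1, hq.2⟩, ?_⟩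
      simp [hq.1.2]
    · simp

lemma sqSummable_conv_indicator (S X : Finset G) :
    SqSummable (conv ((S : Set G).indicator 1) ((X : Set G).indicator 1)) := by
  classical
  apply summable_of_ne_finset_zero (s := Finset.image (fun p : G × G => p.1 * p.2) (S ×ˢ X))
  intro g hg
  rw [conv_indicator]
  have : S.filter (fun s => s⁻¹ * g ∈ X) = ∅ := by
    apply Finset.filter_eq_empty_iff.2
    intro s hs hx
    apply hg
    rw [Finset.mem_image]
    exact ⟨(s, s⁻¹ * g), by simp [hs, hx], by simp⟩
  rw [this]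
  simp

/-- The counting form of the indicator condition. -/
lemma pairs_sq_le [DecidableEq G] {c : ℝ} (S X Z : Finset G)
    (h : normSq (conv ((S : Set G).indicator 1) ((X : Set G).indicator 1))
      ≤ c * (S.card : ℝ) * (X.card : ℝ)) :
    ((pairs S X Z).card : ℝ) ^ 2 ≤ c * S.card * (X.card * Z.card) := by
  classical
  rw [card_pairs_eq]
  push_cast
  have h1 := sq_sum_le_card_mul_sum_sq (s := Z)
    (f := fun z => ((S.filter (fun s => s⁻¹ * z ∈ X)).card : ℝ))
  refine h1.trans ?_
  have h2 : ∑ z ∈ Z, ((S.filter (fun s => s⁻¹ * z ∈ X)).card : ℝ) ^ 2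
      ≤ normSq (conv ((S : Set G).indicator 1) ((X : Set G).indicator 1)) := by
    have h3 := Summable.sum_le_tsum (f := fun g =>
      ‖conv ((S : Set G).indicator 1) ((X : Set G).indicator 1) g‖ ^ 2) Z
      (fun _ _ => by positivity) (sqSummable_conv_indicator S X)
    refine le_trans (le_of_eq ?_) h3
    apply Finset.sum_congr rfl
    intro z _
    rw [conv_indicator, Complex.norm_natCast]
  calc (Z.card : ℝ) * ∑ z ∈ Z, ((S.filter (fun s => s⁻¹ * z ∈ X)).card : ℝ) ^ 2
      ≤ (Z.card : ℝ) * (c * (S.card : ℝ) * (X.card : ℝ)) :=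
        mul_le_mul_of_nonneg_left (h2.trans h) (by positivity)
    _ = c * S.card * (X.card * Z.card) := by ring

/-- The extension of the main estimate to complex-valued functions with `ψ ∈ ℓ²(G)`. -/
theorem conv_bound (B : Finset G) (C : ℝ) (hC : 1 ≤ C)
    (hI : ∀ S ⊆ B, ∀ X : Finset G,
      normSq (conv ((S : Set G).indicator 1) ((X : Set G).indicator 1))
      ≤ C * (S.card : ℝ) * (X.card : ℝ))
    (m : ℕ) (hm : B.card ≤ 2 ^ m) (φ ψ : G → ℂ) (hφ : ∀ g, φ g ≠ 0 → g ∈ B)
    (hψ : SqSummable ψ) :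
    SqSummable (conv φ ψ) ∧
      normSq (conv φ ψ) ≤ 1024 * C * (m + 1) ^ 3 * normSq φ * normSq ψ := by
  classical
  have hφsq : normSq φ = ∑ s ∈ B, ‖φ s‖ ^ 2 := by
    rw [normSq, tsum_eq_sum]
    intro s hs
    have : φ s = 0 := by
      by_contra h
      exact hs (hφ s h)
    simp [this]
  have hconv : ∀ z, conv φ ψ z = ∑ s ∈ B, φ s * ψ (s⁻¹ * z) := by
    intro z
    rw [conv, tsum_eq_sum]
    intro s hs
    have : φ s = 0 := by
      by_contra h
      exact hs (hφ s h)
    simp [this]
  set c : ℝ := 1024 * C * (m + 1) ^ 3 * normSq φ * normSq ψ with hc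
  have hfin : ∀ Z : Finset G, ∑ z ∈ Z, ‖conv φ ψ z‖ ^ 2 ≤ c := by
    intro Z
    set X : Finset G := (B ×ˢ Z).image (fun p => p.1⁻¹ * p.2) with hX
    have hXmem : ∀ s ∈ B, ∀ z ∈ Z, s⁻¹ * z ∈ X := by
      intro s hs z hz
      rw [hX, Finset.mem_image]
      exact ⟨(s, z), by simp [hs, hz], rfl⟩
    have h1 := main_estimate B C hC (fun S hS X Z => pairs_sq_le S X Z (hI S hS X)) m hm
      (fun g => ‖φ g‖) (fun g => ‖ψ g‖) (fun _ => norm_nonneg _) (fun _ => norm_nonneg _) Z X hXmem
    have h2 : ∑ z ∈ Z, ‖conv φ ψ z‖ ^ 2 ≤ ∑ z ∈ Z, (∑ s ∈ B, ‖φ s‖ * ‖ψ (s⁻¹ * z)‖) ^ 2 := by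
      apply Finset.sum_le_sum
      intro z _
      apply pow_le_pow_left₀ (norm_nonneg _)
      rw [hconv]
      refine (norm_sum_le _ _).trans (le_of_eq ?_)
      apply Finset.sum_congr rfl
      intro s _
      exact norm_mul _ _
    have h3 : ∑ x ∈ X, ‖ψ x‖ ^ 2 ≤ normSq ψ :=
      Summable.sum_le_tsum (f := fun g => ‖ψ g‖ ^ 2) X (fun _ _ => by positivity) hψ
    refine h2.trans (h1.trans ?_)
    rw [hc, hφsq]
    apply mul_le_mul_of_nonneg_left h3
    have : 0 ≤ ∑ s ∈ B, ‖φ s‖ ^ 2 := Finset.sum_nonneg (fun _ _ => by positivity)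
    positivity
  constructor
  · exact summable_of_sum_le (fun _ => by positivity) hfin
  · exact Real.tsum_le_of_sum_le (fun _ => by positivity) hfin

lemma normSq_indicator (S : Finset G) : normSq ((S : Set G).indicator (1 : G → ℂ)) = S.card := by
  classical
  rw [normSq, tsum_eq_sum (s := S)]
  · rw [Finset.sum_congr rfl (g := fun _ => (1 : ℝ))]
    · simp
    · intro s hs
      simp [hs]
  · intro s hs
    simp [hs]

lemma sqSummable_indicator (S : Finset G) : SqSummable ((S : Set G).indicator (1 : G → ℂ)) := by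
  apply summable_of_ne_finset_zero (s := S)
  intro s hs
  simp [hs]

/-- The trivial direction. -/
theorem indicator_of_rd {L : G → ℝ} (h : PropertyRD L) : IndicatorCondition L := by
  obtain ⟨P, hP⟩ := h
  refine ⟨P, fun r hr S X hS => ?_⟩
  have h1 := (hP r hr ((S : Set G).indicator 1) ((X : Set G).indicator 1) ?_
    (sqSummable_indicator S) (sqSummable_indicator X)).2
  · rw [normSq_indicator, normSq_indicator] at h1
    exact h1
  · intro g hg
    apply hS
    by_contra h
    exact hg (Set.indicator_of_notMem h _)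

/-- The polynomial in the indicator condition is at least `1`. -/
lemma one_le_eval {L : G → ℝ} (hL : IsLengthFunction L) {P : Polynomial ℝ} {r : ℝ} (hr : 0 < r)
    (hP : ∀ S X : Finset G, (S : Set G) ⊆ ball L r →
    normSq (conv ((S : Set G).indicator 1) ((X : Set G).indicator 1))
      ≤ P.eval r * (S.card : ℝ) * (X.card : ℝ)) : 1 ≤ P.eval r := by
  classical
  have h1 := hP {1} {1} (by
    intro g hg
    simp only [Finset.coe_singleton, Set.mem_singleton_iff] at hg
    rw [hg]
    simp only [ball, Set.mem_ofPred_eq, hL.map_one]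
    exact hr.le)
  have h2 := Summable.le_tsum (f := fun g =>
      ‖conv ((({1} : Finset G) : Set G).indicator 1) ((({1} : Finset G) : Set G).indicator 1) g‖ ^ 2)
      (sqSummable_conv_indicator {1} {1}) 1 (fun _ _ => by positivity)
  rw [conv_indicator] at h2
  have h3 : (({1} : Finset G).filter (fun s => s⁻¹ * 1 ∈ ({1} : Finset G))).card = 1 := by
    rw [Finset.filter_true_of_mem, Finset.card_singleton]
    intro x hx
    rw [Finset.mem_singleton] at hx
    simp [hx]
  rw [h3] at h2
  simp only [Nat.cast_one, norm_one, one_pow] at h2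
  have h4 := h2.trans h1
  simpa using h4

theorem rd_of_indicator {L : G → ℝ} (hL : IsLengthFunction L) (hQ : LogPolynomialGrowth L)
    (h : IndicatorCondition L) : PropertyRD L := by
  classical
  obtain ⟨P, hP⟩ := h
  obtain ⟨Q, hQ⟩ := hQ
  refine ⟨Polynomial.C 1024 * P * (2 * Q + 2) ^ 3, fun r hr φ ψ hφ _ hψ => ?_⟩
  obtain ⟨hfin, hlog⟩ := hQ r hr
  set B : Finset G := hfin.toFinset with hB
  have hBset : (B : Set G) = ball L r := hfin.coe_toFinset
  have hBcard : (ball L r).ncard = B.card := Set.ncard_eq_toFinset_card _ hfin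
  have h1B : 1 ∈ B := by
    rw [hB, Set.Finite.mem_toFinset]
    simp only [ball, Set.mem_ofPred_eq, hL.map_one]
    exact hr.le
  have hBpos : 1 ≤ B.card := Finset.card_pos.2 ⟨1, h1B⟩
  have hP1 : 1 ≤ P.eval r := one_le_eval hL hr (hP r hr)
  set m : ℕ := Nat.clog 2 B.card with hm
  have hm1 : B.card ≤ 2 ^ m := Nat.le_pow_clog (by norm_num) _
  -- `m ≤ 1 + 2 Q(r)`
  have hm2 : (m : ℝ) ≤ 1 + 2 * Q.eval r := by
    have hlogB : Real.log (B.card : ℝ) ≤ Q.eval r := by
      rw [← hBcard]
      exact hlog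
    have hlog0 : 0 ≤ Real.log (B.card : ℝ) := Real.log_nonneg (by exact_mod_cast hBpos)
    rcases Nat.eq_zero_or_pos m with h0 | hpos
    · rw [h0]
      push_cast
      linarith
    · have hlt : 2 ^ (m - 1) < B.card := by
        have : m - 1 < Nat.clog 2 B.card := by omega
        exact (Nat.lt_clog_iff_pow_lt (by norm_num)).1 this
      have hlt' : (2 : ℝ) ^ (m - 1) ≤ (B.card : ℝ) := by exact_mod_cast hlt.le
      have h2 : ((m - 1 : ℕ) : ℝ) * Real.log 2 ≤ Real.log (B.card : ℝ) := by
        rw [← Real.log_pow]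
        exact Real.log_le_log (by positivity) hlt'
      have h3 : (1 : ℝ) / 2 ≤ Real.log 2 := by
        have := Real.log_two_gt_d9
        linarith
      have h4 : ((m - 1 : ℕ) : ℝ) = (m : ℝ) - 1 := by
        rw [Nat.cast_sub hpos]
        simp
      rw [h4] at h2
      have h5 : 0 ≤ (m : ℝ) - 1 := by
        have : (1 : ℝ) ≤ m := by exact_mod_cast hpos
        linarith
      nlinarith
  have hmain := conv_bound B (P.eval r) hP1 (fun S hS X => hP r hr S X (by
    rw [← hBset]
    exact_mod_cast hS)) m hm1 φ ψ (fun g hg => by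
      have := hφ g hg
      rw [← hBset] at this
      exact_mod_cast this) hψ
  refine ⟨hmain.1, hmain.2.trans ?_⟩
  have hn1 : 0 ≤ normSq φ := tsum_nonneg (fun _ => by positivity)
  have hn2 : 0 ≤ normSq ψ := tsum_nonneg (fun _ => by positivity)
  apply mul_le_mul_of_nonneg_right _ hn2
  apply mul_le_mul_of_nonneg_right _ hn1
  simp only [Polynomial.eval_mul, Polynomial.eval_C, Polynomial.eval_pow, Polynomial.eval_add,
    Polynomial.eval_ofNat]
  apply mul_le_mul_of_nonneg_left _ (by positivity)
  apply pow_le_pow_left₀ (by positivity)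
  linarith

end proof

section word

variable {G : Type u} [Group G]

lemma exists_word (T : Finset G) (hT : Subgroup.closure (T : Set G) = ⊤) (g : G) :
    ∃ l : List G, (∀ x ∈ l, x ∈ T ∨ x⁻¹ ∈ T) ∧ l.prod = g := by
  have hg : g ∈ Subgroup.closure (T : Set G) := by rw [hT]; trivial
  rw [← Subgroup.mem_toSubmonoid, Subgroup.closure_toSubmonoid] at hg
  obtain ⟨l, h1, h2⟩ := Submonoid.exists_list_of_mem_closure hg
  exact ⟨l, fun x hx => by simpa using h1 x hx, h2⟩

/-- The natural number valued word length. -/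
noncomputable def wl (T : Finset G) (g : G) : ℕ :=
  sInf {n : ℕ | ∃ l : List G, l.length = n ∧ (∀ x ∈ l, x ∈ T ∨ x⁻¹ ∈ T) ∧ l.prod = g}

lemma wordLength_eq (T : Finset G) (g : G) : wordLength T g = (wl T g : ℝ) := rfl

lemma wl_spec (T : Finset G) (hT : Subgroup.closure (T : Set G) = ⊤) (g : G) :
    ∃ l : List G, l.length = wl T g ∧ (∀ x ∈ l, x ∈ T ∨ x⁻¹ ∈ T) ∧ l.prod = g := by
  have : {n : ℕ | ∃ l : List G, l.length = n ∧ (∀ x ∈ l, x ∈ T ∨ x⁻¹ ∈ T) ∧ l.prod = g}.Nonempty := by
    obtain ⟨l, h1, h2⟩ := exists_word T hT g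
    exact ⟨l.length, l, rfl, h1, h2⟩
  exact Nat.sInf_mem this

lemma wl_le (T : Finset G) {l : List G} (h : ∀ x ∈ l, x ∈ T ∨ x⁻¹ ∈ T) :
    wl T l.prod ≤ l.length := Nat.sInf_le ⟨l, rfl, h, rfl⟩

lemma wl_inv_le (T : Finset G) (hT : Subgroup.closure (T : Set G) = ⊤) (g : G) :
    wl T g⁻¹ ≤ wl T g := by
  obtain ⟨l, h1, h2, h3⟩ := wl_spec T hT g
  have h4 := wl_le T (l := (l.map (fun x => x⁻¹)).reverse) (by
    intro x hx
    rw [List.mem_reverse, List.mem_map] at hx
    obtain ⟨y, hy, rfl⟩ := hx
    rw [inv_inv]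
    exact (h2 y hy).symm)
  rw [← List.prod_inv_reverse, h3, List.length_reverse, List.length_map, h1] at h4
  exact h4

lemma isLengthFunction_wordLength (T : Finset G) (hT : Subgroup.closure (T : Set G) = ⊤) :
    IsLengthFunction (wordLength T) where
  nonneg g := by rw [wordLength_eq]; positivity
  map_one := by
    rw [wordLength_eq]
    have := wl_le T (l := []) (by simp)
    simp only [List.prod_nil, List.length_nil, Nat.le_zero] at this
    rw [this]
    simp
  map_inv g := by
    rw [wordLength_eq, wordLength_eq]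
    have h1 := wl_inv_le T hT g
    have h2 := wl_inv_le T hT g⁻¹
    rw [inv_inv] at h2
    rw [le_antisymm h1 h2]
  map_mul_le g h := by
    rw [wordLength_eq, wordLength_eq, wordLength_eq]
    obtain ⟨l, h1, h2, h3⟩ := wl_spec T hT g
    obtain ⟨l', h1', h2', h3'⟩ := wl_spec T hT h
    have h4 := wl_le T (l := l ++ l') (by
      intro x hx
      rw [List.mem_append] at hx
      rcases hx with hx | hx
      · exact h2 x hx
      · exact h2' x hx)
    rw [List.prod_append, h3, h3', List.length_append, h1, h1'] at h4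
    exact_mod_cast h4

open Pointwise in
lemma logPolynomialGrowth_wordLength (T : Finset G) (hT : Subgroup.closure (T : Set G) = ⊤) :
    LogPolynomialGrowth (wordLength T) := by
  classical
  set U : Finset G := insert 1 (T ∪ T⁻¹) with hU
  have h1U : (1 : G) ∈ U := Finset.mem_insert_self _ _
  have hlist : ∀ l : List G, (∀ x ∈ l, x ∈ T ∨ x⁻¹ ∈ T) → l.prod ∈ U ^ l.length := by
    intro l
    induction l with
    | nil => intro _; simp
    | cons a l ih =>
      intro h
      rw [List.prod_cons, List.length_cons, pow_succ']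
      apply Finset.mul_mem_mul
      · rw [hU, Finset.mem_insert, Finset.mem_union, Finset.mem_inv']
        right
        exact h a (by simp)
      · exact ih (fun x hx => h x (by simp [hx]))
  have hball : ∀ r : ℝ, 0 < r → ball (wordLength T) r ⊆ ((U ^ ⌊r⌋₊ : Finset G) : Set G) := by
    intro r hr g hg
    obtain ⟨l, h1, h2, h3⟩ := wl_spec T hT g
    have h4 : wl T g ≤ ⌊r⌋₊ := by
      rw [Nat.le_floor_iff hr.le]
      exact hg
    rw [Finset.mem_coe, ← h3]
    apply Finset.pow_subset_pow_right h1U (h1.trans_le h4)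
    exact hlist l h2
  refine ⟨Polynomial.C (Real.log U.card) * Polynomial.X, fun r hr => ⟨?_, ?_⟩⟩
  · exact (Finset.finite_toSet _).subset (hball r hr)
  · have h1 : (ball (wordLength T) r).ncard ≤ U.card ^ ⌊r⌋₊ := by
      refine (Set.ncard_le_ncard (hball r hr) (Finset.finite_toSet _)).trans ?_
      rw [Set.ncard_coe_finset]
      exact Finset.card_pow_le
    have hU1 : 1 ≤ U.card := Finset.card_pos.2 ⟨1, h1U⟩
    have hlog0 : 0 ≤ Real.log (U.card : ℝ) := Real.log_nonneg (by exact_mod_cast hU1)
    have hpos : 0 < (ball (wordLength T) r).ncard := by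
      rw [Set.ncard_pos ((Finset.finite_toSet _).subset (hball r hr))]
      refine ⟨1, ?_⟩
      simp only [ball, Set.mem_ofPred_eq, (isLengthFunction_wordLength T hT).map_one]
      exact hr.le
    have h2 : Real.log ((ball (wordLength T) r).ncard : ℝ) ≤ Real.log ((U.card : ℝ) ^ ⌊r⌋₊) := by
      apply Real.log_le_log (by exact_mod_cast hpos)
      exact_mod_cast h1
    refine h2.trans ?_
    rw [Real.log_pow]
    simp only [Polynomial.eval_mul, Polynomial.eval_C, Polynomial.eval_X]
    rw [mul_comm]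
    exact mul_le_mul_of_nonneg_left (Nat.floor_le hr.le) hlog0

end word

/-- Let `L` be a length function on a group `G` such that all balls are finite and `log |B(r)|`
is polynomially bounded in `r`, or let `G` be finitely generated and `L` a word length. Then
`(G, L)` satisfies the indicator condition if and only if it has property RD. -/
theorem result (G : Type u) [Group G] (L : G → ℝ)
    (hL : (IsLengthFunction L ∧ LogPolynomialGrowth L) ∨ IsWordLength L) :
    IndicatorCondition L ↔ PropertyRD L := by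
  have h : IsLengthFunction L ∧ LogPolynomialGrowth L := by
    rcases hL with h | ⟨T, hT, rfl⟩
    · exact h
    · exact ⟨isLengthFunction_wordLength T hT, logPolynomialGrowth_wordLength T hT⟩
  exact ⟨rd_of_indicator h.1 h.2, indicator_of_rd⟩

end Pool.Agent.Results.MP_37447d_al.LogPolyGrowth
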